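import Pool.Agent.H779R2.Glam.Necessity

open MeasureTheory Set Filter
open scoped ENNReal NNReal Topology
open Pool.Agent.H779R2.Glam

namespace Pool.Agent.Results.MP_842e08_an.Weights

/-- For `1 < lam ≤ 2`, `2/lam < p < 2`, a weight satisfies the weighted inequality `(∗)` for
`g_λ^*` if and only if it lies in `A_p ∩ B_(lam p / 2)`. -/
theorem result (lam p : ℝ) (h1 : 1 < lam) (h2 : lam ≤ 2) (hp1 : 2 / lam < p) (hp2 : p < 2)
    (U : ℝ → ℝ) (hU : IsWeight U) :
    Star lam p U ↔ MemA p U ∧ MemB (lam * p / 2) U := by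
  have hl0 : 0 < lam := by linarith
  have hp : 1 < p := by
    have : 1 ≤ 2 / lam := by rw [le_div_iff₀ hl0]; linarith
    linarith
  exact ⟨fun h => ⟨memA_of_star h1 hp hU h, memB_of_star h1 hp1 hU h⟩,
    fun h => sufficiency h1 h2 hp1 hp2 hU h.1 h.2⟩

end Pool.Agent.Results.MP_842e08_an.Weights
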